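import Pool.Agent.H75.CQ3

set_option autoImplicit false
open scoped BoundedContinuousFunction

open Pool.Agent.H75.CQ MeasureTheory Filter in
theorem Pool.Agent.Results.MP_06f7ba_an.Countable.result :
  ∀ (Γ : Type) [AddCommGroup Γ] [TopologicalSpace Γ] [DiscreteTopology Γ] [Countable Γ]
    (m : Means Γ) (σ : @Measure (Means Γ) (alg Γ)),
    IsProbabilityMeasure σ → σ (Ext Γ) = 1 → (∀ f, m.1 f = ∫ ν, ν.1 f ∂σ) →
    ∀ E : Set (Means Γ), E ⊆ Ext Γ → @NullMeasurableSet _ (alg Γ) E σ →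
    ∃ C : ℕ → Set Γ,
      Tendsto (fun p : ℕ × ℕ =>
        m.1 (star (ind (C p.1) - ind (C p.2)) * (ind (C p.1) - ind (C p.2)))) atTop (nhds 0) ∧
      (∀ γ, Tendsto (fun n =>
        m.1 (star (tr γ (ind (C n)) - ind (C n)) * (tr γ (ind (C n)) - ind (C n))))
          atTop (nhds 0)) ∧
      ∀ f : Γ →ᵇ ℂ, Tendsto (fun n => m.1 (f * ind (C n))) atTop (nhds (∫ ν in E, ν.1 f ∂σ)) :=
  fun _ _ _ _ _ m σ h1 h2 h3 E _ hE => main m.1 σ h1 h2 h3 E hE
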